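import Pool.Agent.DAE.Interface
import Pool.Agent.H17Dyn.WeakPerron
import Pool.Agent.H17Dyn.Degree
import Pool.Agent.H17Dyn.Conv

/-!
# MP_dae5d3_ag (S00485): final assembly

Theorem A and Theorem B give the frozen statement.
-/

set_option autoImplicit false

namespace Pool.Agent.DAE

open MvPolynomial Pool.Agent.H17Dyn

/-- the conclusion for one automorphism with dynamical degree bigger than one -/
theorem weak_perron_of {d : ℕ} [NeZero d] (hA : TheoremAStatement d)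
    (hB : TheoremBStatement d) (φ : Poly d ≃ₐ[ℂ] Poly d) {lam : ℝ} (hlam : IsDyn φ lam)
    (h1 : 1 < lam) :
    IsIntegral ℤ lam ∧ (minpoly ℤ lam).natDegree ≤ d - 1 ∧
      ∀ μ : ℂ, Polynomial.aeval μ (minpoly ℤ lam) = 0 → ‖μ‖ ≤ lam := by
  obtain ⟨W, hW, hφ⟩ := hA φ lam hlam h1
  obtain ⟨hint, hμ⟩ := hB φ lam hlam h1 W hW hφ
  refine ⟨hint, ?_, hμ⟩
  -- `W` is not trivial
  have hnt : ∃ P, P ≠ 0 ∧ W P ≠ 0 := by
    have h2 : HH W = 1 := hW.2
    obtain ⟨i, -, hi⟩ := Finset.exists_mem_eq_sup' (s := Finset.univ)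
      (⟨0, Finset.mem_univ _⟩ : (Finset.univ : Finset (Fin d)).Nonempty) fun i => W (X i)
    refine ⟨X i, X_ne_zero i, ?_⟩
    have h3 : W (X i) = 1 := by rw [← hi]; exact h2
    rw [h3]
    exact one_ne_zero
  have h3 := eigen_degree φ hW.1.1.isLogVal h1.ne' (fun P _ => hφ P) hnt
  rw [minpoly.isIntegrallyClosed_eq_field_fractions' ℚ hint,
    (minpoly.monic hint).natDegree_map] at h3
  exact h3.2

/-- **The frozen statement S00485 from Theorem A and Theorem B.** -/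
theorem frozen_of (hA : ∀ (d : ℕ) [NeZero d], 2 ≤ d → TheoremAStatement d)
    (hB : ∀ (d : ℕ) [NeZero d], 2 ≤ d → TheoremBStatement d) :
    ∀ (d : ℕ), 2 ≤ d →
      ∀ φ : MvPolynomial (Fin d) ℂ ≃ₐ[ℂ] MvPolynomial (Fin d) ℂ,
        ∃ lam : ℝ,
          Filter.Tendsto
            (fun n : ℕ =>
              ((Finset.univ.sup (fun i : Fin d => ((φ ^ n) (MvPolynomial.X i)).totalDegree) : ℕ) : ℝ)
                ^ ((1 : ℝ) / (n : ℝ)))
            Filter.atTop (nhds lam) ∧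
          1 ≤ lam ∧
          IsIntegral ℤ lam ∧
          (minpoly ℤ lam).natDegree ≤ d - 1 ∧
          ∀ μ : ℂ, Polynomial.aeval μ (minpoly ℤ lam) = 0 → ‖μ‖ ≤ lam := by
  intro d hd φ
  have : NeZero d := ⟨by omega⟩
  obtain ⟨lam, h1, hlam, -⟩ := exists_dyn φ
  refine ⟨lam, hlam, h1, ?_⟩
  rcases h1.eq_or_lt with h2 | h2
  · rw [← h2]
    exact one_weak_perron hd
  · exact weak_perron_of (hA d hd) (hB d hd) φ hlam h2

end Pool.Agent.DAE
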