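import Pool.Agent.H17Dyn.Piola
import Pool.Agent.H17Dyn.LogVal

/-!
# MP_dae5d3_ag (S00485): common definitions and the statements by which the blocks meet

Log-valuations of `A = ℂ[x_1, ..., x_d]` are functions `h : Poly d → ℝ` with `h 0 = 0`
(this is only a normalisation, it makes the product topology Hausdorff; it is also `Real.log 0`).

* block R (helper34): `NoiseStatement`, `RetractionStatement`, `CompactStatement`;
* block S (helper17): `CellsStatement`;
* block T (helper83): `TheoremAStatement` from the three blocks;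
* block B (helper29): `TheoremBStatement`;
* assembly: `TheoremAStatement → TheoremBStatement → S00485`
  (degree at most `d - 1` is `Pool.Agent.H17Dyn.eigen_degree`, existence of the limit is
  `Pool.Agent.H17Dyn.exists_dyn`).
-/

set_option autoImplicit false

namespace Pool.Agent.DAE

open MvPolynomial Pool.Agent.H17Dyn

/-- the polynomial ring -/
abbrev Poly (d : ℕ) : Type := MvPolynomial (Fin d) ℂ

variable {d : ℕ}

/-- logarithmic valuations of the polynomial ring, trivial on constants, real valued -/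
structure IsVal (h : Poly d → ℝ) : Prop where
  zero : h 0 = 0
  const : ∀ c : ℂ, c ≠ 0 → h (C c) = 0
  mul : ∀ P Q, P ≠ 0 → Q ≠ 0 → h (P * Q) = h P + h Q
  add : ∀ P Q, P ≠ 0 → Q ≠ 0 → P + Q ≠ 0 → h (P + Q) ≤ max (h P) (h Q)

lemma IsVal.isLogVal {h : Poly d → ℝ} (hh : IsVal h) : IsLogVal h := ⟨hh.mul, hh.add, hh.const⟩

/-- fat valuations: nonnegative log discrepancy, tested on polynomials. `jac P` is the
determinant of `(pderiv i (P j))`. -/
def IsFat (h : Poly d → ℝ) : Prop :=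
  ∀ P : Fin d → Poly d, jac P ≠ 0 → h (jac P) ≤ ∑ i, h (P i)

/-- the cone `J` of fat valuations (closed under multiplication by nonnegative reals) -/
def J (d : ℕ) : Set (Poly d → ℝ) := {h | IsVal h ∧ IsFat h}

/-- `H(h) = max_i h(x_i)` -/
noncomputable def HH [NeZero d] (h : Poly d → ℝ) : ℝ :=
  Finset.univ.sup' ⟨0, Finset.mem_univ _⟩ fun i : Fin d => h (X i)

/-- the normalised fat valuations -/
def J1 (d : ℕ) [NeZero d] : Set (Poly d → ℝ) := {h | h ∈ J d ∧ HH h = 1}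

/-- the action `f_* h = h ∘ φ` of an automorphism -/
noncomputable def act (φ : Poly d ≃ₐ[ℂ] Poly d) (h : Poly d → ℝ) : Poly d → ℝ := fun P => h (φ P)

/-- `g` is a system of parameters: `A` is integral over `ℂ[g_1, ..., g_d]` -/
def Frame (g : Fin d → Poly d) : Prop :=
  (aeval g : Poly d →ₐ[ℂ] Poly d).toRingHom.IsIntegral

/-- `h` is monomial in `g_1, ..., g_d`: `h (F(g)) = max` over the monomials of `F`
(the inequality `≤` is the ultrametric inequality). -/
def IsMono (g : Fin d → Poly d) (h : Poly d → ℝ) : Prop :=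
  ∀ (F : Poly d), ∀ m ∈ F.support, ∑ i, (m i : ℝ) * h (g i) ≤ h (aeval g F)

/-- the cone over `Σ_g` : fat valuations which are monomial in `g`. -/
def Sig (g : Fin d → Poly d) : Set (Poly d → ℝ) := {h | h ∈ J d ∧ IsMono g h}

/-- `Σ_g` itself -/
def Sig1 [NeZero d] (g : Fin d → Poly d) : Set (Poly d → ℝ) := {h | h ∈ J1 d ∧ IsMono g h}

/-- evaluation at a finite set of polynomials -/
def ev (D : Finset (Poly d)) (h : Poly d → ℝ) : D → ℝ := fun q => h q

/-! ### Statements of block R -/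

/-- `J_1` is compact and bounded by the degree. -/
def CompactStatement (d : ℕ) [NeZero d] : Prop :=
  IsCompact (J1 d) ∧ ∀ h ∈ J1 d, ∀ P : Poly d,
    -((d : ℝ) - 1) * P.totalDegree ≤ h P ∧ h P ≤ P.totalDegree

/-- coordinate noise: a contraction of `J_1` to the degree valuation, increasing. -/
def NoiseStatement (d : ℕ) [NeZero d] : Prop :=
  ∃ N : ℝ → (Poly d → ℝ) → (Poly d → ℝ),
    ContinuousOn (fun p : ℝ × (Poly d → ℝ) => N p.1 p.2) (Set.Icc (-((d : ℝ) - 1)) 1 ×ˢ J1 d) ∧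
    (∀ s ∈ Set.Icc (-((d : ℝ) - 1)) 1, ∀ h ∈ J1 d, N s h ∈ J1 d ∧ ∀ P, h P ≤ N s h P) ∧
    (∀ h ∈ J1 d, N (-((d : ℝ) - 1)) h = h) ∧
    (∀ h ∈ J1 d, N 1 h = fun P => (P.totalDegree : ℝ)) ∧
    (∀ s ∈ Set.Icc (-((d : ℝ) - 1)) 1, ∀ t ∈ Set.Icc (-((d : ℝ) - 1)) 1, s ≤ t →
      ∀ h ∈ J1 d, ∀ P, N s h P ≤ N t h P)

/-- **the retraction** `R_g : J_1 → Σ_g` -/
def RetractionStatement (d : ℕ) [NeZero d] : Prop :=
  ∀ D0 : Finset (Poly d), ∃ g : Fin d → Poly d, Frame g ∧
    ∃ R : (Poly d → ℝ) → (Poly d → ℝ),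
      ContinuousOn R (J1 d) ∧
      (∀ h ∈ J1 d, R h ∈ Sig1 g ∧ (∀ P, h P ≤ R h P) ∧ ∀ P ∈ D0, R h P = h P) ∧
      ∀ h ∈ Sig1 g, R h = h

/-! ### Statement of block S -/

/-- **polyhedral structure of the cone `Sig g`**: finitely many polynomials `D` separate its
points, its image is a finite union of polyhedral cones given by linear inequalities, and on
every one of them all the functions `w ↦ w(P)` are convex. `s` is the inverse of `ev D`. -/
def CellsStatement (d : ℕ) [NeZero d] : Prop :=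
  ∀ g : Fin d → Poly d, Frame g →
    ∃ (D : Finset (Poly d)) (s : (D → ℝ) → (Poly d → ℝ)) (n m : ℕ)
      (ℓ : Fin n → Fin m → ((D → ℝ) →ₗ[ℝ] ℝ)),
      (∀ i, (X i : Poly d) ∈ D) ∧
      (∀ h ∈ Sig g, s (ev D h) = h) ∧
      (ev D '' Sig g = ⋃ c, {w : D → ℝ | ∀ k, 0 ≤ ℓ c k w}) ∧
      ∀ c, ∀ P : Poly d, ConvexOn ℝ {w : D → ℝ | ∀ k, 0 ≤ ℓ c k w} (fun w => s w P)

/-! ### Theorem A, Theorem B -/

/-- `lam` is the first dynamical degree of `φ` (exists by `H17Dyn.exists_dyn`) -/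
def IsDyn (φ : Poly d ≃ₐ[ℂ] Poly d) (lam : ℝ) : Prop :=
  Filter.Tendsto (fun n : ℕ =>
    ((Finset.univ.sup (fun i : Fin d => ((φ ^ n) (X i)).totalDegree) : ℕ) : ℝ)
      ^ ((1 : ℝ) / (n : ℝ))) Filter.atTop (nhds lam)

/-- **Theorem A**: a fat eigenvaluation with multiplier `λ_1`. -/
def TheoremAStatement (d : ℕ) [NeZero d] : Prop :=
  ∀ (φ : Poly d ≃ₐ[ℂ] Poly d) (lam : ℝ), IsDyn φ lam → 1 < lam →
    ∃ W ∈ J1 d, ∀ P, W (φ P) = lam * W P

/-- **Theorem B**: the multiplier is an algebraic integer and all its conjugates are at most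
`λ_1` in absolute value. -/
def TheoremBStatement (d : ℕ) [NeZero d] : Prop :=
  ∀ (φ : Poly d ≃ₐ[ℂ] Poly d) (lam : ℝ), IsDyn φ lam → 1 < lam →
    ∀ W ∈ J1 d, (∀ P, W (φ P) = lam * W P) →
      IsIntegral ℤ lam ∧ ∀ μ : ℂ, Polynomial.aeval μ (minpoly ℤ lam) = 0 → ‖μ‖ ≤ lam

end Pool.Agent.DAE
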