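import Pool.Agent.DAE.T.Main
import Pool.Agent.DAE.R.Retraction
import Pool.Agent.DAE.R.Noise

/-!
# Theorem A from block S

Blocks R (compactness of `J_1`, noise, retraction) and T (the trap) are theorems; the only input
left is the polyhedral structure `CellsStatement` of block S.
-/

set_option autoImplicit false

namespace Pool.Agent.DAE

/-- Theorem A from the polyhedral structure of `Σ_g` -/
theorem theoremA_of_cells {d : ℕ} [NeZero d] (hS : CellsStatement d) : TheoremAStatement d :=
  theoremA (compactStatement d) (noiseStatement d) (retractionStatement d) hS

end Pool.Agent.DAE
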